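import Mathlib

/-! Boolean cube basics for the theorem `‖f‖₂ ≤ 2 ‖f‖₁` for quadratic forms (MP_9cbc66_an). -/

namespace CStar2

/-- the sign of a Boolean: `false ↦ 1`, `true ↦ -1`. -/
noncomputable def sg (b : Bool) : ℝ := if b then -1 else 1

variable {ι : Type*} [Fintype ι] [DecidableEq ι]

/-- uniform expectation on the cube `ι → Bool`. -/
noncomputable def E (g : (ι → Bool) → ℝ) : ℝ := (∑ x, g x) / 2 ^ Fintype.card ι

/-- the quadratic polynomial `c + (1/2) ∑ᵢⱼ Aᵢⱼ xᵢ xⱼ`. -/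
noncomputable def Q (c : ℝ) (A : ι → ι → ℝ) (x : ι → Bool) : ℝ :=
  c + (∑ i, ∑ j, A i j * (sg (x i) * sg (x j))) / 2

end CStar2
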